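import Pool.Agent.H33.SL1

set_option autoImplicit false

namespace Pool.Agent.Results.MP_669787_al.Neg

open Pool.Agent.H33.SL PowerSeries Filter

section gen
variable {A R : Type} [Ring A] [Ring R] {φ : A ≃+* A} {c : R → ℤ → A}

noncomputable def g (φ : A ≃+* A) (r : ℤ → A) (v : A) (n : ℕ) : A :=
  ((if n = 0 then 1 else 0) - ∑ i : Fin n, g φ r v i * (φ ^ (i : ℤ)) (r (n - i))) * (φ ^ (n : ℤ)) v
decreasing_by exact i.2

lemma inv0 (h : IsSL φ c) {r : R} {v : A} (h0 : ∀ i < 0, c r i = 0) (hv : v * c r 0 = 1) :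
    ∃ s, s * r = 1 := by
  obtain ⟨s, hs⟩ := (h.rng fun i => if 0 ≤ i then g φ (c r) v i.toNat else 0).2
    ⟨0, fun i hi => if_neg (not_le.2 hi)⟩
  have h1 : ∀ i < 0, c s i = 0 := fun i hi => by rw [hs]; exact if_neg (not_le.2 hi)
  refine ⟨s, h.ext fun n => ?_⟩
  by_cases hn : n < 0
  · rw [h.low0 h1 h0 n (by omega), h.one, Pi.single_eq_of_ne hn.ne]
  obtain ⟨n, rfl⟩ := Int.eq_ofNat_of_zero_le (not_lt.1 hn)
  rw [h.mul_eq h1 h0, sub_zero, Int.Icc_eq_finset_map, Finset.sum_map, h.one]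
  simp only [hs, Function.Embedding.trans_apply, Nat.castEmbedding_apply, addLeftEmbedding_apply,
    zero_add, Nat.cast_nonneg, if_true, Int.toNat_natCast, sub_zero]
  rw [show ((n : ℤ) + 1).toNat = n + 1 by omega, Finset.sum_range_succ, Finset.sum_range, g,
    mul_assoc, ← map_mul, sub_self, hv, map_one, mul_one]
  simp [Pi.single_apply]

lemma jac {x : R} : x ∈ Ring.jacobson R ↔ ∀ y, ∃ z, z * (1 + y * x) = 1 := by
  rw [← Ideal.jacobson_bot, Ideal.mem_jacobson_iff]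
  simp only [Ideal.mem_bot, sub_eq_zero, mul_add, mul_one, mul_assoc, add_comm]

end gen

def A : Subring (ℤ → ℚ⟦X⟧) where
  carrier := {a | ∃ l, (∀ i, constantCoeff (a i) = l) ∧ ∀ᶠ i in cofinite, a i = C l}
  zero_mem' := ⟨0, by simp, by simp⟩
  one_mem' := ⟨1, by simp, by simp⟩
  add_mem' := fun ⟨l, h1, h2⟩ ⟨m, h3, h4⟩ => ⟨l + m, by simp [h1, h3], by
    filter_upwards [h2, h4] with i a b; simp [a, b]⟩
  mul_mem' := fun ⟨l, h1, h2⟩ ⟨m, h3, h4⟩ => ⟨l * m, by simp [h1, h3], by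
    filter_upwards [h2, h4] with i a b; simp [a, b]⟩
  neg_mem' := fun ⟨l, h1, h2⟩ => ⟨-l, by simp [h1], by
    filter_upwards [h2] with i a; simp [a]⟩

def sh0 (n : ℤ) (a : A) : A := ⟨fun i => a.1 (i + n), by
  obtain ⟨l, h1, h2⟩ := a.2
  exact ⟨l, fun i => h1 _, (add_left_injective n).tendsto_cofinite.eventually h2⟩⟩

def ph : A ≃+* A where
  toFun := sh0 1
  invFun := sh0 (-1)
  left_inv a := by ext i; simp [sh0]
  right_inv a := by ext i; simp [sh0]
  map_mul' _ _ := rfl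
  map_add' _ _ := rfl

lemma ph_pow (n : ℤ) : ∀ (a : A) (i : ℤ), ((ph ^ n) a).1 i = a.1 (i + n) := by
  induction n using Int.induction_on with
  | zero => simp
  | succ n ih => intro a i; rw [zpow_add_one, RingAut.mul_apply, ih, ← add_assoc]; rfl
  | pred n ih =>
    intro a i; rw [zpow_sub_one, RingAut.mul_apply, ih, ← add_sub_assoc, sub_eq_add_neg]; rfl

noncomputable def lam : A →+* ℚ :=
  constantCoeff.comp ((Pi.evalRingHom (fun _ => ℚ⟦X⟧) 0).comp A.subtype)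

lemma lam_eq (a : A) (i : ℤ) : constantCoeff (a.1 i) = lam a := by
  obtain ⟨l, h1, -⟩ := a.2
  exact (h1 i).trans (h1 0).symm

lemma lam_ph (n : ℤ) (a : A) : lam ((ph ^ n) a) = lam a := by
  rw [← lam_eq _ 0, ph_pow, lam_eq]

lemma unit (a : A) (h : lam a ≠ 0) : ∃ v, v * a = 1 := by
  obtain ⟨l, h1, h2⟩ := a.2
  refine ⟨⟨fun i => (a.1 i)⁻¹, l⁻¹, fun i => by simp [h1], ?_⟩, Subtype.ext (funext fun i =>
    PowerSeries.inv_mul_cancel _ (lam_eq a i ▸ h))⟩
  filter_upwards [h2] with i hi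
  simp [hi]

noncomputable def pt (i : ℤ) (f : ℚ⟦X⟧) (hf : constantCoeff f = 0) : A :=
  ⟨Pi.single i f, 0, fun j => by by_cases h : j = i <;> simp [h, hf], by
    filter_upwards [eventually_cofinite_ne i] with j hj; simp [hj]⟩

variable {R : Type} [Ring R] {c : R → ℤ → A} (h : IsSL ph c)
include h

lemma row (i : ℤ) (u : R) (hu : ∀ n j, j ≠ i → (c u n).1 j = 0) : u ∈ Ring.jacobson R := by
  have k : ∀ u v : R, (∀ n j, j ≠ i → (c u n).1 j = 0) → ∀ n j, j ≠ i → (c (u * v) n).1 j = 0 :=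
    fun u v hu n j hj => by
      obtain ⟨p, hp⟩ := h.bdd u
      obtain ⟨q, hq⟩ := h.bdd v
      simp [h.mul_eq hp hq, hu _ j hj]
  refine jac.2 fun y => ?_
  have hw := k u y hu
  obtain ⟨z, hz⟩ : ∃ z, z * (1 + u * y) = 1 := by
    generalize u * y = w at hw
    have h1 : w * w = h.mono (c w 0) 0 * w := h.ext fun n => by
      rw [h.mul, h.mono_mul, finsum_eq_single _ 0]
      intro m hm
      ext1; ext1 j
      by_cases hj : j = i
      · simp [ph_pow, hw _ (j + m) (by omega)]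
      · simp [hw _ j hj]
    obtain ⟨v, hv⟩ := unit (1 + c w 0) (by
      rw [map_add, ← lam_eq (c w 0) (i + 1), hw _ _ (by omega)]; simp)
    have h2 : h.mono v 0 * (w + h.mono (c w 0) 0 * w) = w := h.ext fun n => by
      simp only [h.mono_mul, h.add', sub_zero, zpow_zero, RingAut.one_apply]
      rw [← one_add_mul, ← mul_assoc, hv, one_mul]
    refine ⟨1 - h.mono v 0 * w, ?_⟩
    rw [sub_mul, mul_assoc, mul_add w, h1, mul_one, h2]; simp
  refine ⟨1 - y * z * u, ?_⟩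
  have : y * z * u * (1 + y * u) = y * (z * (1 + u * y)) * u := by noncomm_ring
  rw [sub_mul, this, hz]; simp

lemma mon (a : A) (ha : lam a = 0) (k : ℤ) : h.mono a k ∈ Ring.jacobson R := by
  obtain ⟨l, h1, h2⟩ := a.2
  obtain rfl : l = 0 := (h1 0).symm.trans ha
  have : h.mono a k = ∑ i ∈ h2.toFinset, h.mono (pt i (a.1 i) (h1 i)) k := h.ext fun n => by
    rw [h.sum']
    ext1; ext1 j
    by_cases hn : n = k
    · simp [h.c_mono, hn, pt, Pi.single_apply]
    · simp [h.c_mono, hn]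
  rw [this]
  refine sum_mem fun i _ => row h i _ fun n j hj => ?_
  by_cases hn : n = k <;> simp [h.c_mono, hn, pt, hj]

lemma allJ (u : R) (hu : ∀ n, lam (c u n) = 0) : u ∈ Ring.jacobson R := by
  refine jac.2 fun y => ?_
  have hw : ∀ n, lam (c (y * u) n) = 0 := fun n => by
    obtain ⟨p, hp⟩ := h.bdd y
    obtain ⟨q, hq⟩ := h.bdd u
    simp [h.mul_eq hp hq, lam_ph, hu]
  generalize y * u = w at hw
  obtain ⟨p, hp⟩ := h.bdd w
  let m := ∑ k ∈ Finset.Ico p 0, h.mono (c w k) k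
  have hm : ∀ n, c m n = if n < 0 then c w n else 0 := fun n => by
    simp only [m, h.sum', h.c_mono, Finset.sum_pi_single, Finset.mem_Ico]
    by_cases h1 : n < p <;> simp [h1, not_lt.1, hp] <;> omega
  obtain ⟨v, hv⟩ := unit (c (1 + w - m) 0) (by simp [h.sub', h.add', hm, h.one, hw])
  obtain ⟨s, hs⟩ := inv0 h (fun i hi => by simp [h.sub', h.add', hm, h.one, hi, hi.ne]) hv
  obtain ⟨z, hz⟩ := jac.1 (show m ∈ Ring.jacobson R from sum_mem fun k _ => mon h _ (hw k) k) s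
  refine ⟨z * s, ?_⟩
  rw [mul_assoc, ← sub_add_cancel (1 + w) m, mul_add, hs, hz]

lemma loc (r : R) (hr : r ∉ Ring.jacobson R) : ∃ s, s * r - 1 ∈ Ring.jacobson R := by
  let cs : ℚ → A := fun l => ⟨fun _ => C l, l, by simp, by simp⟩
  have hc : ∀ l, lam (cs l) = l := fun l => by simp [← lam_eq _ 0, cs]
  obtain ⟨p, hp⟩ := h.bdd r
  obtain ⟨r0, h0⟩ := (h.rng fun n => cs (lam (c r n))).2 ⟨p, fun i hi => by
    ext1; simp [hp i hi, cs]; rfl⟩
  have h1 : r - r0 ∈ Ring.jacobson R := allJ h _ fun n => by simp [h.sub', h0, hc]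
  obtain ⟨q, q1, q2⟩ := h.ex_low (r := r0) (by rintro rfl; exact hr (by simpa using h1))
  obtain ⟨v, hv⟩ := unit (c (h.mono 1 (-q) * r0) 0) (by
    simp only [h.mono_mul, one_mul, lam_ph, sub_neg_eq_add, zero_add]
    intro e
    rw [h0] at e q1
    rw [hc] at e
    exact q1 (by ext1; simp [e, cs]; rfl))
  obtain ⟨s, hs⟩ := inv0 h (fun i hi => by simp [h.mono_mul, q2 (i + q) (by omega)]) hv
  refine ⟨s * h.mono 1 (-q), ?_⟩
  rw [← hs, ← mul_assoc, ← mul_sub]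
  exact Ideal.mul_mem_left _ _ h1

omit h

theorem result : ∃ (A R : Type) (_ : Ring A) (_ : Ring R) (φ : A ≃+* A) (c : R → ℤ → A),
    IsSL φ c ∧ IsSemisimpleRing (R ⧸ Ring.jacobson R) ∧
    ∃ a ∈ Ring.jacobson A, ¬ IsNilpotent a := by
  obtain ⟨R, _, c, h⟩ := exists_SL ph
  refine ⟨A, R, inferInstance, inferInstance, ph, c, h, ?_, pt 0 X (by simp), jac.2 fun y =>
    unit _ (by rw [map_add, map_mul, ← lam_eq (pt 0 X _) 0]; simp [pt]), fun ⟨n, hn⟩ => ?_⟩
  · refine (isSemisimpleModule_iff _ _).2 ⟨fun I => ?_⟩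
    by_cases hI : I = ⊥
    · exact ⟨⊤, hI ▸ isCompl_bot_top⟩
    obtain ⟨x, hx, h0⟩ := (Submodule.ne_bot_iff _).1 hI
    obtain ⟨x, rfl⟩ := Ideal.Quotient.mk_surjective x
    obtain ⟨s, hs⟩ := loc h x (mt Ideal.Quotient.eq_zero_iff_mem.2 h0)
    have : I = ⊤ := (Ideal.eq_top_iff_one _).2 (by
      rw [← map_one (Ideal.Quotient.mk _), ← Ideal.Quotient.eq.2 hs, map_mul]
      exact Ideal.mul_mem_left _ _ hx)
    exact ⟨⊥, this ▸ isCompl_top_bot⟩
  · simpa [pt] using congrFun (congrArg Subtype.val hn) 0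

end Pool.Agent.Results.MP_669787_al.Neg
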